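import Pool.Agent.Q120.ME.Stm

/-!
# Project BU: the uniform Bateman–Horn law, for ALL random sets near the sieved models, at every level of information

Model of level `Q`: each `n ≥ 3` coprime to `Q` is in the set independently with probability `lv Q n = min (1 / 2) ((Q / φ(Q)) / log n)`, no other
`n`. `A` is ANY random set of integers coprime to `Q`, `D(x) = relEnt (lv Q) μ A (ind (UQ Q) x)` the relative entropy (nats) of the law of
`A ∩ [0, x)` with respect to the model; class `δ`: `D(x) ≤ x ^ (δ + o(1))`. For `k` distinct nonconstant integer polynomials `F_1, …, F_k` of degree at most `g`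
let `hit S F x = #{n < x : F_i(n) ∈ S for all i}`, `ex p F x` the expectation in the model. Results, assembled from the jobs (`g, k, Q ≥ 1`, `C > 0`):
(1) for real `θ`: almost surely `|hit A F x - ex F x| ≤ N ^ (θ + ε)` for all `ε > 0`, all large `N`, all `x ≤ N` and ALL systems `F` with coefficients `|c| ≤ N ^ C`
holds for all `A` of class `δ` iff `(1 + min 1 ((g + C) δ)) / 2 ≤ θ`;
(2) `hit A F N = (𝔖_Q(F) + o(1)) ∑_{n < N} ∏ 1 / log F_i(n)` uniformly in ALL systems with coefficients in `[0, N ^ C]` holds almost surely for all `A` of class `δ`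
iff `(g + C) δ < 1`.

Each job is a definition `J_… : Prop`; a theorem `t_… : J_…` (with the named jobs as hypotheses) is to be proved. The proofs are complete in
the docstrings. Proved jobs of ME may be used (`J_EVT`, `J_CON`, `J_ENM`: `Q184.ME.t_EVT`, `Q285.ME.t_CON`, `Q224.ME.t_ENM`).
-/

set_option autoImplicit false

namespace Pool.Agent.Q120.BU

open Finset MeasureTheory Filter Pool.Agent.Q120.ET Pool.Agent.Q120.ME Polynomial
open scoped Topology

/-- The integers `≥ 3` coprime to `Q`. -/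
def UQ (Q : ℕ) : Set ℕ := {n | 3 ≤ n ∧ n.Coprime Q}

open Classical in
/-- The probabilities of the model of level `Q`. -/
noncomputable def lv (Q n : ℕ) : ℝ := if n ∈ UQ Q then min (1 / 2) ((Q : ℝ) / Nat.totient Q / Real.log n) else 0

/-- The value of the polynomial (`0` if it is negative). -/
noncomputable def va (F : ℤ[X]) (n : ℕ) : ℕ := (F.eval (n : ℤ)).toNat

/-- The set of the values of the `F i` at `n`. -/
noncomputable def vals {k : ℕ} (F : Fin k → ℤ[X]) (n : ℕ) : Finset ℕ := univ.image (fun i => va (F i) n)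

open Classical in
/-- The number of the `n < x` with all `F i n` in `S`. -/
noncomputable def hit {k : ℕ} (S : Set ℕ) (F : Fin k → ℤ[X]) (x : ℕ) : ℕ := ((range x).filter (fun n => ∀ i, va (F i) n ∈ S)).card

/-- Its expectation in the model with the probabilities `p`. -/
noncomputable def ex {k : ℕ} (p : ℕ → ℝ) (F : Fin k → ℤ[X]) (x : ℕ) : ℝ := ∑ n ∈ range x, ∏ v ∈ vals F n, p v

/-- Systems of distinct nonconstant polynomials of degree at most `g` with coefficients at most `N ^ C` in absolute value. -/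
structure Sys {k : ℕ} (g : ℕ) (C : ℝ) (N : ℕ) (F : Fin k → ℤ[X]) : Prop where
  inj : Function.Injective F
  one_le : ∀ i, 1 ≤ (F i).natDegree
  le : ∀ i, (F i).natDegree ≤ g
  coeff : ∀ i j, |(((F i).coeff j : ℤ) : ℝ)| ≤ (N : ℝ) ^ C

/-- The class `δ`. -/
def UCls (Q : ℕ) (δ : ℝ) {Ω : Type} [MeasurableSpace Ω] (μ : Measure Ω) (A : Ω → Set ℕ) : Prop :=
  IsRandomSet A ∧ (∀ᵐ ω ∂μ, A ω ⊆ UQ Q) ∧ ∀ ε : ℝ, 0 < ε → ∀ᶠ x : ℕ in atTop, relEnt (lv Q) μ A (ind (UQ Q) x) ≤ (x : ℝ) ^ (δ + ε)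

/-- The uniform error bound of (1). -/
def Err (Q k g : ℕ) (C θ : ℝ) (S : Set ℕ) : Prop := ∀ ε : ℝ, 0 < ε → ∀ᶠ N : ℕ in atTop, ∀ F : Fin k → ℤ[X], Sys g C N F → ∀ x : ℕ, x ≤ N →
  |(hit S F x : ℝ) - ex (lv Q) F x| ≤ (N : ℝ) ^ (θ + ε)

open Classical in
/-- The singular series of level `Q`. -/
noncomputable def SS {k : ℕ} (Q : ℕ) (F : Fin k → ℤ[X]) : ℝ :=
  (((range Q).filter (fun r => ∀ i, (va (F i) r).Coprime Q)).card : ℝ) / Q * ((Q : ℝ) / Nat.totient Q) ^ k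

/-- The expected main term. -/
noncomputable def LI {k : ℕ} (F : Fin k → ℤ[X]) (x : ℕ) : ℝ := ∑ n ∈ Ico 2 x, ∏ i, 1 / Real.log (va (F i) n)

/-- The uniform Bateman–Horn law of (2). -/
def BHU (Q k g : ℕ) (C : ℝ) (S : Set ℕ) : Prop := ∀ ε : ℝ, 0 < ε → ∀ᶠ N : ℕ in atTop, ∀ F : Fin k → ℤ[X], Sys g C N F →
  (∀ i j, 0 ≤ (F i).coeff j) → |(hit S F N : ℝ) - SS Q F * LI F N| ≤ ε * LI F N

/-- **Job MCD.** McDiarmid's inequality.
Proof. It suffices to prove for every real `s`: `∑ bern p W T * exp (s (f T - E)) ≤ exp (s ^ 2 |W| b ^ 2 / 2)`, `E = ∑ T ∈ W.powerset, bern p W T * f T` (then Markov's inequality with `s = ± t / (|W| b ^ 2)`;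
if `|W| b = 0` then `f = E`). Induction on `W` (for `insert a W`): with `g T = p f(insert a T) + (1 - p) f(T)`, `p = p a`, one has `|f(insert a T) - f T| ≤ b`, and
`p exp (s (f(insert a T) - g T)) + (1 - p) exp (s (f T - g T)) ≤ exp (s ^ 2 b ^ 2 / 2)` (a variable of mean `0` with values in `[-b, b]`: by convexity
`exp (s y) ≤ cosh (s b) + (y / b) sinh (s b)`, and `cosh u ≤ exp (u ^ 2 / 2)`, `Real.cosh_le_exp_half_sq`), and `g` satisfies the hypothesis on `W`. For `F ⊇ W`: `f` depends on `T ∩ W` only and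
the sum of `bern p F T` over the `T` with `T ∩ W = T'` is `bern p W T'`. -/
def J_MCD : Prop := ∀ (p : ℕ → ℝ) (G W : Finset ℕ), W ⊆ G → (∀ n ∈ G, 0 ≤ p n ∧ p n ≤ 1) → ∀ (f : Finset ℕ → ℝ) (b t : ℝ), 0 < t → 0 < b →
  (∀ T, f T = f (T ∩ W)) → (∀ T, ∀ a ∈ W, |f (insert a T) - f (T.erase a)| ≤ b) →
  ∑ T ∈ G.powerset with t ≤ |f T - ∑ T' ∈ W.powerset, bern p W T' * f T'|, bern p G T ≤ 2 * Real.exp (-(t ^ 2 / (2 * W.card * b ^ 2)))

/-- **Job KL2.** The chi-square bound.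
Proof. `log y ≤ y - 1`: `a log (a / b) ≤ a (a / b - 1)` and `(1 - a) log ((1 - a) / (1 - b)) ≤ (1 - a) ((1 - a) / (1 - b) - 1)`; the sum of the right sides is `(a - b) ^ 2 / (b (1 - b))`. Nonnegativity: `log y ≥ 1 - 1 / y`
(`0 log 0 = 0`). -/
def J_KL2 : Prop := ∀ a b : ℝ, 0 ≤ a → a ≤ 1 → 0 < b → b < 1 → 0 ≤ kl a b ∧ kl a b ≤ (a - b) ^ 2 / (b * (1 - b))

open Classical in
/-- **Job UNI** (uses MCD). The model satisfies the uniform bound with a large probability, for any probabilities.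
Proof. Let `N` be large, `G = range Y`. Fix `F` and `x ≤ N`, `W` = the set of the values `va (F i) n`, `n < x`, `i < k`, below `Y`, `|W| ≤ k N`; `f T = hit (T ∪ (nothing else)) F x`: a value `v` is `va (F i) n` for
at most `g` integers `n` for each `i` if `v ≥ 1` (roots of `F i - v`, not zero as `F i` is not constant); the value `0` may occur often, but `0 ∉ UQ`: `p 0 = 0`, remove it: let `f T = #{n < x : all va (F i) n ∈ T \ {0}}`, and in the
conclusion `T` is restricted to `T ⊆ U`, `0 ∉ U` (`bern p (ind U Y) T` for `T ⊆ ind U Y`). So `b = k g` in MCD. `∑ bern f = ex` (for each `n` the probability that `vals F n ⊆ T` is the product, `0` if some value is not in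
`ind U Y`; hypothesis: `p v = 0` for `v ∉ U` and all values are `< Y`). MCD with `t = N ^ θ / 1`: at most `2 exp (-N ^ (2 θ) / (2 k N (k g) ^ 2))`. The number of the `(F, x)` is at most
`(N + 1) ((2 N ^ C + 1) ^ (g + 1)) ^ k ≤ exp (N ^ η)` for every `η > 0`, `N` large (a finite set: the map `F ↦` coefficients is injective; or the union bound over a `Finset` image). As `2 θ - 1 > 0` the total is
at most `exp (-N ^ (2 θ - 1) / C')`. -/
def J_UNI : Prop := ∀ (k g : ℕ) (C θ : ℝ), 1 ≤ k → 1 ≤ g → 0 ≤ C → 1 / 2 < θ → ∃ c : ℝ, 0 < c ∧ ∀ᶠ N : ℕ in atTop, ∀ (U : Set ℕ) (p : ℕ → ℝ) (Y : ℕ),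
  0 ∉ U → (∀ n, 0 ≤ p n ∧ p n ≤ 1) → (∀ n, n ∉ U → p n = 0) → ((g : ℝ) + 1) * (N : ℝ) ^ (g + C) < Y →
  ∑ T ∈ (ind U Y).powerset with ∃ F : Fin k → ℤ[X], Sys g C N F ∧ ∃ x : ℕ, x ≤ N ∧ (N : ℝ) ^ θ < |(hit ((T : Finset ℕ) : Set ℕ) F x : ℝ) - ex p F x|, bern p (ind U Y) T ≤
    Real.exp (-(c * (N : ℝ) ^ (2 * θ - 1)))

/-- **Job UPE** (uses `J_EVT` of ME, UNI). The upper bound of (1).
Proof. Let `a = min 1 ((g + C) δ)`, `ε > 0`. If `a = 1`: `|hit - ex| ≤ N`-bound is trivial (`0 ≤ hit ≤ x`, `0 ≤ ex ≤ x`; `θ ≥ 1`). Otherwise `(g + C) δ < 1`, `θ' = θ + ε / 2 ≥ (1 + (g + C) δ) / 2 + ε / 2`, `Y = ⌈(g + 1) N ^ (g + C)⌉₊ + 1` (it is enough to treat small `ε`).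
`E_N` = the event in UNI (with `U = UQ Q`, `p = lv Q`; for `A ω ⊆ UQ Q` the counts of `A ω` and of `tr A (ind U Y) ω` agree, as all values are `< Y`). EVT and UNI:
`μ(E_N) c N ^ (2 θ' - 1) ≤ relEnt + log 2 ≤ Y ^ (δ + η) + log 2`, so `μ(E_N) ≤ N ^ ((g + C) (δ + η) + η - (2 θ' - 1)) ≤ N ^ (-ε / 2)` for small `η`: summable over `N = 2 ^ j`. Borel-Cantelli; for `2 ^ (j - 1) < N ≤ 2 ^ j`
a system `Sys g C N F` is `Sys g C (2 ^ j) F` and `(2 ^ j) ^ θ' ≤ (2 N) ^ θ' ≤ N ^ (θ + ε)` for large `N`. All `ε = 1 / (i + 1)`. -/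
def J_UPE : Prop := ∀ (Q k g : ℕ) (C δ θ : ℝ), 1 ≤ Q → 1 ≤ k → 1 ≤ g → 0 < C → 0 ≤ δ → (1 + min 1 ((g + C) * δ)) / 2 ≤ θ →
  ∀ (Ω : Type) [MeasurableSpace Ω] (μ : Measure Ω) [IsProbabilityMeasure μ] (A : Ω → Set ℕ), UCls Q δ μ A → ∀ᵐ ω ∂μ, Err Q k g C θ (A ω)

/-- **Job SER.** The singular series (deterministic).
Proof. Nonnegative coefficients, degree between `1` and `g`: `n ≤ va (F i) n ≤ (g + 1) N ^ (g + C)` for `1 ≤ n < N`, `va (F i) n = eval`, and `va (F i) (n + r) ≤ (1 + r / n) ^ g va (F i) n`. So `log va (F i) n ≥ log n`,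
`LI F N ≥ (N - 2) / (log ((g + 1) N ^ (g + C))) ^ k ≥ c N / log ^ k N`, `c = c(g, C, k)`. The `n < √N`, say, contribute at most `√N` to each sum. For `n ≥ √N` and `0 ≤ r < Q`: `0 ≤ log va (F i) (n + r) - log va (F i) n ≤ g Q / n`, so
the product `∏ 1 / log` changes by a factor `1 + O(1 / n)` in a block of `Q` consecutive integers. For `n ≥ √N` (`N` large) the minimum in `lv` is the second term, so the product over `vals F n` is
`(Q / φ(Q)) ^ k ∏ 1 / log va (F i) n` if all `va (F i) n` are coprime to `Q` and distinct, `0` if one is not coprime; at most `k ^ 2 g` integers `n` have `va (F i) n = va (F j) n`, `i ≠ j` (`F i - F j ≠ 0` of degree at most `g`).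
The condition of coprimality depends on `n` modulo `Q` (`Int.ModEq` and `Polynomial.eval`). In each block of `Q` integers the number of good residues is `Q * SS / (Q / φ) ^ k`. Sum over the blocks. -/
def J_SER : Prop := ∀ (Q k g : ℕ) (C : ℝ), 1 ≤ Q → 1 ≤ k → 1 ≤ g → 0 < C → ∀ ε : ℝ, 0 < ε → ∃ c : ℝ, 0 < c ∧ ∀ᶠ N : ℕ in atTop, ∀ F : Fin k → ℤ[X],
  Sys g C N F → (∀ i j, 0 ≤ (F i).coeff j) → |ex (lv Q) F N - SS Q F * LI F N| ≤ ε * LI F N ∧ c * (N / Real.log N ^ k) ≤ LI F N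

/-- The special system `F_i = a X ^ g + (i Q + 1)`, `a = ⌊M ^ C⌋`. -/
noncomputable def spec (Q k g : ℕ) (C : ℝ) (M : ℕ) (i : Fin k) : ℤ[X] :=
  (((⌊(M : ℝ) ^ C⌋₊ : ℕ) : ℤ)) • (X ^ g : ℤ[X]) + Polynomial.C (((i : ℕ) * Q + 1 : ℕ) : ℤ)

/-- **Job SPC.** The special system.
Proof. `M` large: `a = ⌊M ^ C⌋₊ ≥ k Q + 1`; degree `g`, leading coefficient `a`, all coefficients in `[0, M ^ C]`, the constant terms are distinct. For `n` in `[M, 2 M)` that are multiples of `Q`: `va = a n ^ g + i Q + 1 ≡ 1 mod Q`, coprime to `Q`, and the `k` values are distinct,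
at most `(a + 1) (2 M) ^ g`; so the product is at least `(c / log M) ^ k`, and there are at least `M / Q - 1` such `n`. `1 ≤ Q`: `0 < SS`, since `r = 0` is counted: `va (F i) 0 = i Q + 1`. A value `a n ^ g + i Q + 1` with `i ≥ 1` is not of the form `a m ^ g + 1` since `0 < i Q < a` is not
divisible by `a`. The values for `n ∈ [M, 2 M)` are between `M ^ (g + C) / 2` and `2 ^ (g + 1) M ^ (g + C)`. -/
def J_SPC : Prop := ∀ (Q k g : ℕ) (C : ℝ), 1 ≤ Q → 1 ≤ k → 1 ≤ g → 0 < C → ∃ c : ℝ, 0 < c ∧ ∀ᶠ M : ℕ in atTop,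
  Sys g C M (spec Q k g C M) ∧ (∀ i j, 0 ≤ (spec Q k g C M i).coeff j) ∧ 1 ≤ Q * SS Q (spec Q k g C M) ∧
  c * (M / Real.log M ^ k) ≤ ex (lv Q) (spec Q k g C M) (2 * M) - ex (lv Q) (spec Q k g C M) M ∧
  (∀ i, ∀ n ∈ Ico M (2 * M), (M : ℝ) ^ (g + C) / 2 ≤ va (spec Q k g C M i) n ∧ (va (spec Q k g C M i) n : ℝ) ≤ 2 ^ (g + 1) * (M : ℝ) ^ (g + C)) ∧
  (∀ i j, ∀ n m : ℕ, va (spec Q k g C M i) n = va (spec Q k g C M j) m → i = j) ∧ (∀ i, Function.Injective (va (spec Q k g C M i)))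

/-- **Job CNX** (uses `J_CON`, `J_ENM` of ME, MCD, KL2, SPC). The construction.
Proof. `M j = 2 ^ (4 ^ j)` (`j ≥ J₀`), `F = spec Q k g C (M j)`, `V_j` = the values of `F 0` on `[M j, 2 M j)`: pairwise disjoint, also disjoint from the values of `F i`, `i ≥ 1`, on `[M j, 2 M j)` (SPC; sizes). `e j = min 1 (M j ^ (-(1 - (g + C) δ) / 2) log ^ (3 k) (M j))`;
`r n = (1 - e j) lv Q n` for `n ∈ V_j`, `r n = lv Q n` otherwise. `J_CON` with a one point space `X` gives `A` with independent elements of probabilities `r`; almost surely `A ⊆ UQ Q` (countably many null events). `J_ENM` and KL2: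
`relEnt ≤ ∑_{j : M j ^ (g + C) / 2 ≤ x} ∑_{n ∈ V_j} e j ^ 2 lv / (1 - lv) ≤ ∑_j 2 e j ^ 2 M j ≤ ∑_j 2 min (M j) (M j ^ ((g + C) δ) log ^ (6 k) (M j))`, and `M j ≤ (2 x) ^ (1 / (g + C))`, so this is at most `x ^ (δ + ε)` for large `x`: if `(g + C) δ < 1`
directly, otherwise `M j ≤ (2 x) ^ (1 / (g + C)) ≤ (2 x) ^ δ`. Let `I_j` = the number of the `n ∈ [M, 2 M)` with all `F i n ∈ A`, `M = M j`: `E I_j = (1 - e j) X_j`, `X_j = ex (2 M) - ex M ≥ c M / log ^ k M`. If `e j = 1` (so for all large `j` if `(g + C) δ ≥ 1`) `I_j = 0` almost surely. In general, by MCD (`|W| ≤ k M`,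
`b = k g`; each value is attained at most once by each `F i`) and Borel-Cantelli `|I_j - (1 - e j) X_j| ≤ M ^ (1 / 2) log M` for all large `j` almost surely, so `X_j - I_j ≥ e j X_j - M ^ (1 / 2) log M ≥ M ^ ((1 + min 1 ((g + C) δ)) / 2) / log ^ (k + 1) M` (for `e j < 1` because of the
factor `log ^ (3 k)`; for `e j = 1` because `X_j ≥ c M / log ^ k M`). -/
def J_CNX : Prop := ∀ (Q k g : ℕ) (C δ : ℝ), 1 ≤ Q → 1 ≤ k → 1 ≤ g → 0 < C → 0 ≤ δ →
  ∃ (Ω : Type) (_ : MeasurableSpace Ω) (μ : Measure Ω) (_ : IsProbabilityMeasure μ) (A : Ω → Set ℕ), UCls Q δ μ A ∧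
    (∀ᵐ ω ∂μ, ∃ᶠ M : ℕ in atTop, (M : ℝ) ^ ((1 + min 1 ((g + C) * δ)) / 2) / Real.log M ^ (k + 1) ≤
      (ex (lv Q) (spec Q k g C M) (2 * M) - ex (lv Q) (spec Q k g C M) M) - ((hit (A ω) (spec Q k g C M) (2 * M) : ℝ) - hit (A ω) (spec Q k g C M) M)) ∧
    (1 ≤ (g + C) * δ → ∀ᵐ ω ∂μ, ∃ᶠ M : ℕ in atTop, hit (A ω) (spec Q k g C M) (2 * M) = hit (A ω) (spec Q k g C M) M)

end Pool.Agent.Q120.BU
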